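import Pool.Agent.Work.MP_a17a63_lc.SMain

/-!
# A collapse of oblivious symmetric alternation relative to an oracle

Relative to the oracle `B` every language in `O_2^{p,B}` is in `P^B`, hence in `PP^B`, although
`UP^B ∩ coUP^B` is not contained in `P^B / poly`.
-/

namespace Pool.Agent.Results.MP_a81742_lc.CollapseOracle

open ORDist ORTwo

theorem result : ∃ B : List Bool → Bool,
    (∀ (m : Polynomial ℕ) (L : Set (List Bool)), InO2O B (fun n => m.eval n) L →
      InPO B L ∧ ∃ K : List Bool → Bool, InPPO B K ∧ L = {x | K x = true}) ∧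
    ∃ L : Set (List Bool), InUPO B L ∧ InUPO B Lᶜ ∧ ¬ InPPolyO B L :=
  exists_collapse_UP

end Pool.Agent.Results.MP_a81742_lc.CollapseOracle
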