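import Pool.Agent.Work.MP_a81742_lc_or.Alpha

/-!
# `PSPACE = O_2^p` inside `P/poly` relative to an oracle, but not in `P^{PP[n^k]}/n^k`

There is an oracle `A` such that `PSPACE^A` (alternating polynomial time) is contained in
`O_2^{p,A}`, in `P^{ONP^A}` and in `P^A/poly`, while for every polynomial `q` some language in
`O_2^{p,A}` is not decided in polynomial time with the oracle `A`, `q` adaptive queries to a
language of `PP^A` and `q` bits of advice. The third part is the exact form of the second.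
-/

namespace Pool.Agent.Results.MP_a81742_lc.PspaceCollapse

open ORDist ORD

theorem result : ∃ A : List Bool → Bool,
    (∀ L : Set (List Bool), InPSPACEO A L →
      (∃ m : Polynomial ℕ, InO2O A (fun n => m.eval n) L) ∧ InPONPO A L ∧ InPPolyO A L) ∧
    (∀ q : Polynomial ℕ, ∃ (m : Polynomial ℕ) (L : Set (List Bool)),
      InO2O A (fun n => m.eval n) L ∧ InPONPO A L ∧
      ¬ InPPPOAdv A (fun n => q.eval n) (fun n => q.eval n) L ∧
      ∀ K : List Bool → Bool, InPPO A K → L ≠ {x | K x = true}) ∧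
    ∀ l g : ℕ → ℕ, UnaryPT l → UnaryPT g → ∃ L : Set (List Bool),
      InO2O A (fun n => (g n + 1) * l n) L ∧ InPONPO A L ∧
      ((∀ n, g n = 0) → ∀ x ∈ L, ∀ b ∈ x, b = false) ∧
      ∀ f : ℕ → ℕ, (∀ c : ℕ, ∃ n₀ : ℕ, ∀ n ≥ n₀,
          c * (g n + 1) * ((g n + 1) * (f n + 1) + Nat.log 2 n + 1) ≤ l n) →
        ¬ InPPPOAdv A f g L :=
  exists_oracle_pspace

end Pool.Agent.Results.MP_a81742_lc.PspaceCollapse
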